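import Pool.Agent.H93.RO.Defs
import Pool.Agent.H93.RO.Final

/-!
# LP and LNP are not polynomial-time many-one equivalent

All definitions are in `Pool.Agent.H93.RO.Defs`. The proof shows that `LNP` is hard for
exponential time with unbounded error, while `LP` consists of problems decidable in polynomial
time with unbounded error.
-/

namespace Pool.Agent.Results.MP_89c424_lc.NotEquivalent

open Pool.Agent.H93.RO

/-- There is a language in `LNP` that is not polynomial-time many-one reducible to any language
in `LP`. -/
theorem result : ∃ A ∈ LNP, ∀ D ∈ LP, ¬ ManyOne A D := main

end Pool.Agent.Results.MP_89c424_lc.NotEquivalent
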